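import Pool.Agent.Q2.CX.Core

/-!
# A strong exchange condition for twisted involutions

`(W, S)` is an arbitrary Coxeter system (Mathlib's `CoxeterSystem`, any rank, `W` finite or
infinite), `W⁺ = W ⋊ Aut(W, S)`.
-/

namespace Pool.Agent.Results.MP_af48a1_al.StrongExchange

open CoxeterSystem

universe u v

variable {B : Type u} {M : CoxeterMatrix B} {W : Type v} [Group W]

/-- `Aut(W, S)`: the automorphisms of `W` that map `S` onto itself. -/
def AutS (cs : CoxeterSystem M W) : Subgroup (MulAut W) where
  carrier := {θ | θ '' Set.range cs.simple = Set.range cs.simple}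
  one_mem' := by simp
  mul_mem' := by
    intro θ θ' h h'
    change θ '' Set.range cs.simple = Set.range cs.simple at h
    change θ' '' Set.range cs.simple = Set.range cs.simple at h'
    change (θ * θ') '' Set.range cs.simple = Set.range cs.simple
    rw [MulAut.coe_mul, Set.image_comp, h', h]
  inv_mem' := by
    intro θ h
    change θ '' Set.range cs.simple = Set.range cs.simple at h
    change (θ⁻¹ : MulAut W) '' Set.range cs.simple = Set.range cs.simple
    conv_lhs => rw [← h]
    rw [← Set.image_comp]
    simp

/-- `W⁺ = W ⋊ Aut(W, S)`; the element `w θ` is `⟨w, θ⟩`. -/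
abbrev WPlus (cs : CoxeterSystem M W) : Type v := W ⋊[(AutS cs).subtype] (AutS cs)

/-- The inclusion `W → W⁺`. -/
abbrev inc (cs : CoxeterSystem M W) : W →* WPlus cs := SemidirectProduct.inl

/-- The length function `ℓ(w θ) = ℓ(w)` of `W⁺`. -/
noncomputable def len (cs : CoxeterSystem M W) (x : WPlus cs) : ℕ := cs.length x.left

/-- The Bruhat order of `W`: `u ≤ v` if there is a chain from `u` to `v` in which every element is
obtained from the one before by multiplication with a reflection that increases the length. -/
def BruhatLE (cs : CoxeterSystem M W) : W → W → Prop :=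
  Relation.ReflTransGen fun x y => ∃ t, cs.IsReflection t ∧ y = x * t ∧ cs.length x < cs.length y

/-- The strict Bruhat order of `W⁺`: `w θ < w' θ'` if `θ = θ'`, `w ≤ w'` and `w θ ≠ w' θ'`. -/
def BruhatLT (cs : CoxeterSystem M W) (x y : WPlus cs) : Prop :=
  x.right = y.right ∧ BruhatLE cs x.left y.left ∧ x ≠ y

/-- `K` is a `W`-conjugacy class in `I⁺ = {x ∈ W⁺ : x² = 1}`. -/
def IsClass (cs : CoxeterSystem M W) (K : Set (WPlus cs)) : Prop :=
  ∃ x : WPlus cs, x * x = 1 ∧ K = Set.range fun v : W => inc cs v * x * (inc cs v)⁻¹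

/-- **The strong exchange condition.** For every Coxeter system `(W, S)` and every
`W`-conjugacy class `K ⊆ I⁺` with `ℓ(r w r) = ℓ(w) ⇒ r w r = w` for all reflections `r` and all
`w ∈ K`, one has `ℓ(r w r) < ℓ(w) ⇒ r w r < w` for all reflections `r` and all `w ∈ K`. -/
theorem result (cs : CoxeterSystem M W) (K : Set (WPlus cs)) (hK : IsClass cs K)
    (h : ∀ r, cs.IsReflection r → ∀ w ∈ K,
      len cs (inc cs r * w * inc cs r) = len cs w → inc cs r * w * inc cs r = w) :
    ∀ r, cs.IsReflection r → ∀ w ∈ K,
      len cs (inc cs r * w * inc cs r) < len cs w → BruhatLT cs (inc cs r * w * inc cs r) w := by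
  obtain ⟨x₀, hx₀, rfl⟩ := hK
  rintro r hr _ ⟨v₀, rfl⟩ hlt
  set x : WPlus cs := inc cs v₀ * x₀ * (inc cs v₀)⁻¹ with hx
  have hxx : x * x = 1 := by
    rw [hx]
    calc inc cs v₀ * x₀ * (inc cs v₀)⁻¹ * (inc cs v₀ * x₀ * (inc cs v₀)⁻¹)
        = inc cs v₀ * (x₀ * x₀) * (inc cs v₀)⁻¹ := by group
      _ = 1 := by rw [hx₀]; group
  -- the automorphism
  set θ : W ≃* W := (x.right : MulAut W) with hθ
  obtain ⟨d⟩ := Q2.CX.exists_diag (cs := cs) (θ := θ) x.right.2
  have hrr : x.right * x.right = 1 := by
    have := congrArg SemidirectProduct.right hxx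
    simpa using this
  have hinv : ∀ v, θ (θ v) = v := by
    intro v
    have h1 : (x.right : MulAut W) * (x.right : MulAut W) = 1 := by
      rw [← Subgroup.coe_mul, hrr, Subgroup.coe_one]
    exact DFunLike.congr_fun h1 v
  have hw : θ x.left = x.left⁻¹ := by
    have h1 := congrArg SemidirectProduct.left hxx
    simp only [SemidirectProduct.mul_left, SemidirectProduct.one_left] at h1
    have h2 : x.left * θ x.left = 1 := h1
    exact (eq_inv_of_mul_eq_one_right h2)
  have hr1 : ∀ t, cs.IsReflection t → (inc cs t)⁻¹ = inc cs t := by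
    intro t ht; rw [← map_inv, ht.inv]
  -- conjugates
  have hconj : ∀ (u : W) (z : WPlus cs), z.right = x.right →
      (inc cs u * z * (inc cs u)⁻¹).left = u * z.left * (θ u)⁻¹ ∧
      (inc cs u * z * (inc cs u)⁻¹).right = x.right := by
    intro u z hz
    constructor
    · simp only [inc, SemidirectProduct.mul_left, SemidirectProduct.left_inl,
        SemidirectProduct.right_inl, map_one, MulAut.one_apply, SemidirectProduct.mul_right,
        one_mul, SemidirectProduct.inv_left, inv_one, map_inv, hz]
      rfl
    · simp only [inc, SemidirectProduct.mul_right, SemidirectProduct.right_inl,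
        SemidirectProduct.inv_right, one_mul, inv_one, mul_one, hz]
  have href : ∀ (t : W), cs.IsReflection t → ∀ z : WPlus cs, z.right = x.right →
      (inc cs t * z * inc cs t).left = t * z.left * θ t ∧
      (inc cs t * z * inc cs t).right = x.right := by
    intro t ht z hz
    have h1 := hconj t z hz
    rw [hr1 t ht] at h1
    have h2 : (θ t)⁻¹ = θ t := by rw [← map_inv, ht.inv]
    rwa [h2] at h1
  have hcore := Q2.CX.core θ d hinv x.left hw (by
    intro v t ht hlen
    set z : WPlus cs := inc cs v * x * (inc cs v)⁻¹ with hz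
    have hzl := (hconj v x rfl).1
    have hzr := (hconj v x rfl).2
    rw [← hz] at hzl hzr
    have h1 := href t ht z hzr
    have hmem : z ∈ Set.range fun v : W => inc cs v * x₀ * (inc cs v)⁻¹ := by
      refine ⟨v * v₀, ?_⟩
      simp only [hz, hx, map_mul]
      group
    have h2 := h t ht z hmem (by
      simp only [len]
      rw [h1.1, hzl]
      exact hlen)
    have h3 := congrArg SemidirectProduct.left h2
    rw [h1.1, hzl] at h3
    exact h3) r hr (by
      have h1 := href r hr x rfl
      simp only [len] at hlt
      rwa [h1.1] at hlt)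
  have h1 := href r hr x rfl
  refine ⟨h1.2, ?_, ?_⟩
  · rw [h1.1]; exact hcore
  · intro e
    rw [e] at hlt
    exact lt_irrefl _ hlt

end Pool.Agent.Results.MP_af48a1_al.StrongExchange
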